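import Mathlib

namespace Pool.Agent.H.MP_fcea8d

open Set Filter Topology

/-- retractional skeleton -/
structure Skel {K : Type*} [TopologicalSpace K] {G : Type*} [PartialOrder G]
    (r : G → K → K) : Prop where
  ne : Nonempty G
  dir : ∀ s t : G, ∃ u, s ≤ u ∧ t ≤ u
  sup : ∀ s : ℕ → G, Monotone s → ∃ t, IsLUB (range s) t
  cont : ∀ s, Continuous (r s)
  idem : ∀ s, r s ∘ r s = r s
  metr : ∀ s, TopologicalSpace.MetrizableSpace (range (r s))
  comm : ∀ s t, s ≤ t → r s = r s ∘ r t ∧ r s = r t ∘ r s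
  lim : ∀ s : ℕ → G, Monotone s → ∀ t, IsLUB (range s) t →
    ∀ x, Tendsto (fun n => r (s n) x) atTop (𝓝 (r t x))
  conv : ∀ x, Tendsto (fun s => r s x) atTop (𝓝 x)

variable {K : Type*} [TopologicalSpace K] {G : Type*} [PartialOrder G] {r : G → K → K}

/-- countable nonempty directed -/
def CD (S : Set G) : Prop := S.Countable ∧ S.Nonempty ∧ ∀ a ∈ S, ∀ b ∈ S, ∃ c ∈ S, a ≤ c ∧ b ≤ c

theorem CD.seq {S : Set G} (h : CD S) :
    ∃ s : ℕ → G, Monotone s ∧ (∀ n, s n ∈ S) ∧ (∀ a ∈ S, ∃ n, a ≤ s n) ∧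
      ∀ t, IsLUB (range s) t ↔ IsLUB S t := by
  obtain ⟨hc, hn, hd⟩ := h
  obtain ⟨e, he⟩ := hc.exists_eq_range hn
  have hd' : ∀ a : S, ∀ n : ℕ, ∃ c : S, a.1 ≤ c.1 ∧ e n ≤ c.1 := by
    intro a n
    obtain ⟨c, hc, h1, h2⟩ := hd a.1 a.2 (e n) (by rw [he]; exact mem_range_self n)
    exact ⟨⟨c, hc⟩, h1, h2⟩
  choose c hc1 hc2 using hd'
  obtain ⟨a0, ha0⟩ := hn
  let s : ℕ → S := fun n => Nat.rec ⟨a0, ha0⟩ (fun n a => c a n) n
  have h3 : ∀ a ∈ S, ∃ n, a ≤ (s n).1 := by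
    intro a ha
    rw [he] at ha
    obtain ⟨n, rfl⟩ := ha
    exact ⟨n + 1, hc2 _ _⟩
  refine ⟨fun n => (s n).1, monotone_nat_of_le_succ fun n => hc1 _ _, fun n => (s n).2, h3, ?_⟩
  intro t
  have : upperBounds (range fun n => (s n).1) = upperBounds S := by
    ext u
    constructor
    · intro hu a ha
      obtain ⟨n, hn⟩ := h3 a ha
      exact hn.trans (hu (mem_range_self n))
    · rintro hu _ ⟨n, rfl⟩
      exact hu (s n).2
  simp only [IsLUB, this]

namespace Skel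
variable (h : Skel r)
include h

theorem l (x : K) {s t : G} (hst : s ≤ t) : r s (r t x) = r s x :=
  (congrFun (h.comm s t hst).1 x).symm

theorem fx {x : K} {s t : G} (hst : s ≤ t) (hx : r s x = x) : r t x = x := by
  have := (congrFun (h.comm s t hst).2 x).symm
  simpa [hx] using this

theorem id' (s : G) (x : K) : r s (r s x) = r s x := congrFun (h.idem s) x

theorem rg (s : G) : range (r s) = {x | r s x = x} := by
  ext x
  constructor
  · rintro ⟨y, rfl⟩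
    exact h.id' s y
  · exact fun hx => ⟨x, hx⟩

theorem lub {S : Set G} (hS : CD S) : ∃ t, IsLUB S t := by
  obtain ⟨s, hs, -, -, h4⟩ := hS.seq
  obtain ⟨t, ht⟩ := h.sup s hs
  exact ⟨t, (h4 t).1 ht⟩

theorem unif [CompactSpace K] [T2Space K] {W : Set (K × K)} (hW : IsOpen W)
    (hd : ∀ x, (x, x) ∈ W) {s : ℕ → G} (hs : Monotone s) {t : G} (ht : IsLUB (range s) t) :
    ∃ n, ∀ x y, r t x = x → r t y = y → r (s n) x = r (s n) y → (x, y) ∈ W := by
  by_contra hc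
  push Not at hc
  let Z : ℕ → Set (K × K) := fun n =>
    {p | r t p.1 = p.1} ∩ {p | r t p.2 = p.2} ∩ {p | r (s n) p.1 = r (s n) p.2} ∩ Wᶜ
  have hZ : ∀ n, IsClosed (Z n) := by
    intro n
    have := h.cont t
    have := h.cont (s n)
    refine IsClosed.inter (IsClosed.inter (IsClosed.inter ?_ ?_) ?_) hW.isClosed_compl
    all_goals exact isClosed_eq (by fun_prop) (by fun_prop)
  have hne : ∀ n, (Z n).Nonempty := by
    intro n
    obtain ⟨x, y, h1, h2, h3, h4⟩ := hc n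
    exact ⟨(x, y), ⟨⟨h1, h2⟩, h3⟩, h4⟩
  have hm : ∀ n, Z (n + 1) ⊆ Z n := by
    rintro n p ⟨⟨h1, h3⟩, h4⟩
    refine ⟨⟨h1, ?_⟩, h4⟩
    have hle := hs (Nat.le_succ n)
    show r (s n) p.1 = r (s n) p.2
    rw [← h.l p.1 hle, ← h.l p.2 hle]
    exact congrArg _ h3
  obtain ⟨p, hp⟩ := IsCompact.nonempty_iInter_of_sequence_nonempty_isCompact_isClosed Z hm hne
    (hZ 0).isCompact hZ
  rw [mem_iInter] at hp
  have h1 := h.lim s hs t ht p.1
  have h2 := h.lim s hs t ht p.2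
  have e : (fun n => r (s n) p.1) = fun n => r (s n) p.2 := funext fun n => (hp n).1.2
  rw [e] at h1
  have e2 := tendsto_nhds_unique h1 h2
  have e3 : p.1 = p.2 := by
    rw [← (hp 0).1.1.1, ← (hp 0).1.1.2]
    exact e2
  apply (hp 0).2
  have : p = (p.1, p.1) := Prod.ext rfl e3.symm
  rw [this]
  exact hd _

theorem stab [CompactSpace K] [T2Space K] {W : Set (K × K)} (hW : IsOpen W)
    (hd : ∀ x, (x, x) ∈ W) {A : Set G} (hn : A.Nonempty)
    (hA : ∀ a ∈ A, ∀ b ∈ A, ∃ c ∈ A, a ≤ c ∧ b ≤ c) :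
    ∃ t ∈ A, ∀ t' ∈ A, t ≤ t' → ∀ a ∈ A, ∀ x, r a x = x → (x, r t' x) ∈ W := by
  have key : ∃ t ∈ A, ∀ t' ∈ A, t ≤ t' → ∀ x y, r t' x = x → r t' y = y → r t x = r t y →
      (x, y) ∈ W := by
    by_contra hc
    push Not at hc
    have hc' : ∀ t : A, ∃ t' : A, t.1 ≤ t'.1 ∧ ∃ x y, r t'.1 x = x ∧ r t'.1 y = y ∧
        r t.1 x = r t.1 y ∧ (x, y) ∉ W := by
      intro t
      obtain ⟨t', h1, h2, h3⟩ := hc t.1 t.2
      exact ⟨⟨t', h1⟩, h2, h3⟩
    choose c hc1 hc2 using hc'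
    obtain ⟨a0, ha0⟩ := hn
    let s : ℕ → A := fun n => c^[n] ⟨a0, ha0⟩
    have hs1 : ∀ n, s (n + 1) = c (s n) := fun n => Function.iterate_succ_apply' _ _ _
    have hs : Monotone fun n => (s n).1 :=
      monotone_nat_of_le_succ fun n => by rw [hs1]; exact hc1 _
    obtain ⟨t, ht⟩ := h.sup _ hs
    obtain ⟨n, hn⟩ := h.unif hW hd hs ht
    obtain ⟨x, y, h1, h2, h3, h4⟩ := hc2 (s n)
    have hle : (c (s n)).1 ≤ t := by
      rw [← hs1]
      exact ht.1 (mem_range_self (n + 1))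
    exact h4 (hn x y (h.fx hle h1) (h.fx hle h2) h3)
  obtain ⟨t, ht, hk⟩ := key
  refine ⟨t, ht, fun t' ht' hle a ha x hx => ?_⟩
  obtain ⟨c, hc, h1, h2⟩ := hA a ha t' ht'
  exact hk c hc (hle.trans h2) x _ (h.fx h1 hx) (h.fx h2 (h.id' _ _)) (h.l x hle).symm

theorem dist_ex (s : G) : ∃ d : K × K → ℝ, Continuous d ∧ (∀ x, d (x, x) = 0) ∧
    ∀ x y, d (x, y) ≤ 0 → r s x = r s y := by
  have := h.metr s
  letI := TopologicalSpace.metrizableSpaceMetric (range (r s))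
  let f : K → range (r s) := fun x => ⟨r s x, mem_range_self x⟩
  have hf : Continuous f := (h.cont s).subtype_mk _
  refine ⟨fun p => dist (f p.1) (f p.2), by fun_prop, fun x => dist_self _, fun x y hxy => ?_⟩
  have := dist_le_zero.1 hxy
  exact congrArg Subtype.val this

theorem trace [T2Space K] (d : G → K × K → ℝ) (hd : ∀ s, Continuous (d s))
    (hd2 : ∀ s x y, d s (x, y) ≤ 0 → r s x = r s y) {S T : Set G} (hS : CD S) (hT : CD T)
    {σ τ : G} (hσ : IsLUB S σ) (hτ : IsLUB T τ) (hle : τ ≤ σ) {x : K} (hx : r σ x = x)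
    (hg : ∀ s ∈ S, ∀ k : ℕ, ∃ t ∈ T, ∀ t' ∈ T, t ≤ t' → d s (x, r t' x) < 1 / ((k : ℝ) + 1)) :
    r τ x = x := by
  obtain ⟨s, hs, hs1, hs2, hs3⟩ := hS.seq
  obtain ⟨t, ht, ht1, ht2, ht3⟩ := hT.seq
  have h1 : ∀ a ∈ S, r a x = r a (r τ x) := by
    intro a ha
    apply hd2
    have hl : Tendsto (fun n => d a (x, r (t n) x)) atTop (𝓝 (d a (x, r τ x))) :=
      ((hd a).tendsto _).comp (tendsto_const_nhds.prodMk_nhds (h.lim t ht τ ((ht3 τ).2 hτ) x))
    have h2 : ∀ k : ℕ, d a (x, r τ x) ≤ 1 / ((k : ℝ) + 1) := by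
      intro k
      obtain ⟨t0, h0, hk⟩ := hg a ha k
      obtain ⟨m, hm⟩ := ht2 t0 h0
      refine le_of_tendsto hl ?_
      filter_upwards [eventually_ge_atTop m] with n hn
      exact (hk _ (ht1 n) (hm.trans (ht hn))).le
    exact ge_of_tendsto' tendsto_one_div_add_atTop_nhds_zero_nat h2
  have l1 := h.lim s hs σ ((hs3 σ).2 hσ) x
  have l2 := h.lim s hs σ ((hs3 σ).2 hσ) (r τ x)
  have e : (fun n => r (s n) x) = fun n => r (s n) (r τ x) := funext fun n => h1 _ (hs1 n)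
  rw [e] at l1
  have := tendsto_nhds_unique l1 l2
  rw [hx, h.fx hle (h.id' τ x)] at this
  exact this.symm

theorem clos [T2Space K] {s : ℕ → G} (hs : Monotone s) {t : G} (ht : IsLUB (range s) t) :
    range (r t) = closure (⋃ n, range (r (s n))) := by
  apply Subset.antisymm
  · rintro _ ⟨x, rfl⟩
    exact mem_closure_of_tendsto (h.lim s hs t ht x)
      (Eventually.of_forall fun n => mem_iUnion.2 ⟨n, mem_range_self x⟩)
  · refine closure_minimal ?_ ?_
    · intro x hx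
      obtain ⟨n, hn⟩ := mem_iUnion.1 hx
      rw [h.rg] at hn ⊢
      exact h.fx (ht.1 (mem_range_self n)) hn
    · rw [h.rg]
      exact isClosed_eq (h.cont t) continuous_id

end Skel

section hull
variable (b : G) (u : G → G → G)

/-- hull under the upper bound function -/
def H (X : Set G) : Set G := ⋃ n : ℕ, (fun Y => Y ∪ image2 u Y Y)^[n] (insert b X)

omit [PartialOrder G] in
theorem H_min {X Y : Set G} (hb : b ∈ Y) (hX : X ⊆ Y) (hu : ∀ a ∈ Y, ∀ c ∈ Y, u a c ∈ Y) :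
    H b u X ⊆ Y := by
  refine iUnion_subset fun n => ?_
  induction n with
  | zero => exact insert_subset hb hX
  | succ n ih =>
    rw [Function.iterate_succ_apply']
    refine union_subset ih ?_
    rintro _ ⟨a, ha, c, hc, rfl⟩
    exact hu a (ih ha) c (ih hc)

omit [PartialOrder G] in
theorem H_b (X : Set G) : b ∈ H b u X := mem_iUnion.2 ⟨0, mem_insert _ _⟩

omit [PartialOrder G] in
theorem H_sub (X : Set G) : X ⊆ H b u X := fun _ hx => mem_iUnion.2 ⟨0, mem_insert_of_mem _ hx⟩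

omit [PartialOrder G] in
theorem H_u (X : Set G) : ∀ a ∈ H b u X, ∀ c ∈ H b u X, u a c ∈ H b u X := by
  intro a ha c hc
  obtain ⟨n, hn⟩ := mem_iUnion.1 ha
  obtain ⟨m, hm⟩ := mem_iUnion.1 hc
  have mono : Monotone fun n : ℕ => (fun Y => Y ∪ image2 u Y Y)^[n] (insert b X) :=
    monotone_nat_of_le_succ fun n => by
      rw [Function.iterate_succ_apply']
      exact subset_union_left
  refine mem_iUnion.2 ⟨max n m + 1, ?_⟩
  rw [Function.iterate_succ_apply']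
  exact Or.inr (mem_image2_of_mem (mono (le_max_left _ _) hn) (mono (le_max_right _ _) hm))

omit [PartialOrder G] in
theorem H_mono {X Y : Set G} (hXY : X ⊆ Y) : H b u X ⊆ H b u Y :=
  H_min b u (H_b b u Y) (hXY.trans (H_sub b u Y)) (H_u b u Y)

omit [PartialOrder G] in
theorem H_cnt {X : Set G} (hX : X.Countable) : (H b u X).Countable := by
  refine countable_iUnion fun n => ?_
  induction n with
  | zero => exact hX.insert b
  | succ n ih =>
    rw [Function.iterate_succ_apply']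
    exact ih.union (ih.image2 ih u)

omit [PartialOrder G] in
theorem H_fin {X : Set G} {t : G} (ht : t ∈ H b u X) : ∃ c ⊆ X, c.Finite ∧ t ∈ H b u c := by
  refine H_min b u (Y := {t | ∃ c ⊆ X, c.Finite ∧ t ∈ H b u c}) ?_ ?_ ?_ ht
  · exact ⟨∅, empty_subset _, finite_empty, H_b b u _⟩
  · intro x hx
    exact ⟨{x}, singleton_subset_iff.2 hx, finite_singleton x, H_sub b u _ rfl⟩
  · rintro a ⟨c, h1, h2, h3⟩ a' ⟨c', h1', h2', h3'⟩
    exact ⟨c ∪ c', union_subset h1 h1', h2.union h2',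
      H_u b u _ _ (H_mono b u subset_union_left h3) _ (H_mono b u subset_union_right h3')⟩

omit [PartialOrder G] in
theorem H_un {a : ℕ → Set G} (ha : Monotone a) {t : G} (ht : t ∈ H b u (⋃ n, a n)) :
    ∃ n, t ∈ H b u (a n) := by
  refine H_min b u (Y := {t | ∃ n, t ∈ H b u (a n)}) ⟨0, H_b b u _⟩ ?_ ?_ ht
  · intro x hx
    obtain ⟨n, hn⟩ := mem_iUnion.1 hx
    exact ⟨n, H_sub b u _ hn⟩
  · rintro x ⟨n, hn⟩ y ⟨m, hm⟩
    exact ⟨max n m, H_u b u _ _ (H_mono b u (ha (le_max_left _ _)) hn) _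
      (H_mono b u (ha (le_max_right _ _)) hm)⟩

theorem H_dir (hu : ∀ a c, a ≤ u a c ∧ c ≤ u a c) (X : Set G) :
    ∀ a ∈ H b u X, ∀ c ∈ H b u X, ∃ e ∈ H b u X, a ≤ e ∧ c ≤ e :=
  fun a ha c hc => ⟨u a c, H_u b u X a ha c hc, hu a c⟩

theorem H_CD (hu : ∀ a c, a ≤ u a c ∧ c ≤ u a c) {X : Set G} (hX : X.Countable) :
    CD (H b u X) := ⟨H_cnt b u hX, ⟨b, H_b b u X⟩, H_dir b u hu X⟩

end hull

end Pool.Agent.H.MP_fcea8d
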