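import Pool.Agent.H.MP_fcea8d.A

namespace Pool.Agent.H.MP_fcea8d

open Set Filter Topology

variable {K : Type*} [TopologicalSpace K] {G : Type*} [PartialOrder G] {r : G → K → K}

/-- points fixed by the retraction at the supremum of a countable directed subset of `A` -/
def Ds (r : G → K → K) (A : Set G) : Set K :=
  {x | ∃ T ⊆ A, CD T ∧ ∃ τ, IsLUB T τ ∧ r τ x = x}

theorem club [CompactSpace K] [T2Space K] (hK : Nonempty K) (h : Skel r) :
    ∃ (C : Set (Set G)) (φ : Set G → G) (J : Set G) (x : G → K),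
      (∀ a ∈ C, a = {α ∈ J | r (φ a) (x α) = x α}) ∧
      (∀ a ∈ C, ∀ a' ∈ C, a ⊆ a' → φ a ≤ φ a') ∧
      (∀ a ∈ C, ∀ a' ∈ C, ∃ c ∈ C, a ⊆ c ∧ a' ⊆ c) ∧ C.Nonempty ∧
      (∀ a : ℕ → Set G, Monotone a → (∀ n, a n ∈ C) →
        (⋃ n, a n) ∈ C ∧ IsLUB (range fun n => φ (a n)) (φ (⋃ n, a n))) ∧
      (∀ t y, r t y = y → ∃ a ∈ C, r (φ a) y = y) := by
  classical
  obtain ⟨b⟩ := h.ne
  choose u hu1 hu2 using h.dir
  have hu : ∀ a c, a ≤ u a c ∧ c ≤ u a c := fun a c => ⟨hu1 a c, hu2 a c⟩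
  choose d hd hd0 hd2 using h.dist_ex
  let lt : G → G → Prop := WellOrderingRel
  have wf : WellFounded lt := IsWellFounded.wf
  let Jp : G → Prop := wf.fix fun β (ih : ∀ γ, lt γ β → Prop) =>
    ¬ {y | r β y = y} ⊆ Ds r (H b u {γ | ∃ hγ : lt γ β, ih γ hγ})
  let J : Set G := {β | Jp β}
  have hJ : ∀ β, β ∈ J ↔ ¬ {y | r β y = y} ⊆ Ds r (H b u (J ∩ {γ | lt γ β})) := by
    intro β
    have e : {γ | ∃ _ : lt γ β, Jp γ} = J ∩ {γ | lt γ β} := by
      ext γ
      simp [J, and_comm]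
    show Jp β ↔ _
    rw [← e]
    exact Iff.of_eq (wf.fix_eq _ β)
  have hx : ∀ β, Nonempty K → ∃ y, β ∈ J → r β y = y ∧ y ∉ Ds r (H b u (J ∩ {γ | lt γ β})) := by
    rintro β ⟨y0⟩
    by_cases hβ : β ∈ J
    · obtain ⟨y, h1, h2⟩ := not_subset.1 ((hJ β).1 hβ)
      exact ⟨y, fun _ => ⟨h1, h2⟩⟩
    · exact ⟨y0, fun h' => absurd h' hβ⟩
  choose x hx using fun β => hx β hK
  have hφ : ∀ a : Set G, ∃ t, a.Countable → IsLUB (H b u a) t := by
    intro a
    by_cases ha : a.Countable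
    · obtain ⟨t, ht⟩ := h.lub (H_CD b u hu ha)
      exact ⟨t, fun _ => ht⟩
    · exact ⟨b, fun h' => absurd h' ha⟩
  choose φ hφ using hφ
  let P : G → G → ℕ → G → Prop := fun β s k t =>
    ∀ t' ∈ H b u (J ∩ {γ | lt γ β}), t ≤ t' → ∀ a ∈ H b u (J ∩ {γ | lt γ β}), ∀ y, r a y = y →
      d s (y, r t' y) < 1 / ((k : ℝ) + 1)
  have hP : ∀ β s k, ∃ c ⊆ J ∩ {γ | lt γ β}, c.Finite ∧ ∃ t ∈ H b u c, P β s k t := by
    intro β s k
    obtain ⟨t, ht, h2⟩ := h.stab (W := {p | d s p < 1 / ((k : ℝ) + 1)})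
      (isOpen_lt (hd s) continuous_const)
      (fun y => by
        show d s (y, y) < _
        rw [hd0]
        positivity) ⟨b, H_b b u (J ∩ {γ | lt γ β})⟩ (H_dir b u hu _)
    obtain ⟨c, h3, h4, h5⟩ := H_fin b u ht
    exact ⟨c, h3, h4, t, h5, h2⟩
  choose c hc1 hc2 hc3 using hP
  let Q : Set G → Set G → Prop := fun a a' =>
    ∀ β ∈ a, ∀ s ∈ H b u a, ∀ k, ∃ t ∈ H b u (a' ∩ {γ | lt γ β}), P β s k t
  let C : Set (Set G) := {a | a ⊆ J ∧ a.Countable ∧ Q a a}
  have hun : ∀ a : ℕ → Set G, Monotone a → (∀ n, a n ⊆ J ∧ (a n).Countable) →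
      (∀ n, Q (a n) (a (n + 1))) → (⋃ n, a n) ∈ C := by
    intro a ha h1 h2
    refine ⟨iUnion_subset fun n => (h1 n).1, countable_iUnion fun n => (h1 n).2, ?_⟩
    intro β hβ s hs k
    obtain ⟨n, hn⟩ := mem_iUnion.1 hβ
    obtain ⟨m, hm⟩ := H_un b u ha hs
    obtain ⟨t, ht, h3⟩ := h2 (max n m) β (ha (le_max_left _ _) hn) s
      (H_mono b u (ha (le_max_right _ _)) hm) k
    exact ⟨t, H_mono b u (inter_subset_inter_left _ (subset_iUnion a _)) ht, h3⟩
  have hcof : ∀ a ⊆ J, a.Countable → ∃ a' ∈ C, a ⊆ a' := by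
    intro a0 h1 h2
    let st : Set G → Set G := fun a => a ∪ ⋃ β ∈ a, ⋃ s ∈ H b u a, ⋃ k, c β s k
    let a : ℕ → Set G := fun n => st^[n] a0
    have ha : ∀ n, a (n + 1) = st (a n) := fun n => Function.iterate_succ_apply' _ _ _
    refine ⟨⋃ n, a n, hun a (monotone_nat_of_le_succ fun n => ?_) ?_ ?_, subset_iUnion a 0⟩
    · rw [ha]
      exact subset_union_left
    · intro n
      induction n with
      | zero => exact ⟨h1, h2⟩
      | succ n ih =>
        rw [ha]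
        refine ⟨union_subset ih.1 ?_, ih.2.union ?_⟩
        · simp only [iUnion_subset_iff]
          exact fun β _ s _ k => (hc1 β s k).trans inter_subset_left
        · exact ih.2.biUnion fun β _ => (H_cnt b u ih.2).biUnion fun s _ =>
            countable_iUnion fun k => (hc2 β s k).countable
    · intro n β hβ s hs k
      obtain ⟨t, ht, h3⟩ := hc3 β s k
      refine ⟨t, H_mono b u (subset_inter ?_ ((hc1 β s k).trans inter_subset_right)) ht, h3⟩
      rw [ha]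
      intro z hz
      refine Or.inr ?_
      simp only [mem_iUnion]
      exact ⟨β, hβ, s, hs, k, hz⟩
  have hmono : ∀ a ∈ C, ∀ a' ∈ C, a ⊆ a' → φ a ≤ φ a' := fun a ha a' ha' haa =>
    (hφ a ha.2.1).2 fun s hs => (hφ a' ha'.2.1).1 (H_mono b u haa hs)
  refine ⟨C, φ, J, x, ?_, hmono, ?_, ?_, ?_, ?_⟩
  · intro a ha
    apply Subset.antisymm
    · intro α hα
      exact ⟨ha.1 hα, h.fx ((hφ a ha.2.1).1 (H_sub b u a hα)) (hx α (ha.1 hα)).1⟩
    · rintro α ⟨hα, hfx⟩
      by_contra hna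
      apply (hx α hα).2
      by_cases hex : ∃ β ∈ a, lt α β
      · obtain ⟨β, ⟨hβ, hαβ⟩, hmin⟩ := wf.has_min {β | β ∈ a ∧ lt α β} hex
        have hcT : (a ∩ {γ | lt γ β}).Countable := ha.2.1.mono inter_subset_left
        have hT := H_CD b u hu hcT
        refine ⟨H b u (a ∩ {γ | lt γ β}), H_mono b u ?_, hT, φ _, hφ _ hcT, ?_⟩
        · rintro γ ⟨h1, h2⟩
          refine ⟨ha.1 h1, ?_⟩
          rcases trichotomous_of lt γ α with h3 | h3 | h3
          · exact h3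
          · exact absurd (h3 ▸ h1) hna
          · exact absurd h2 (hmin γ ⟨h1, h3⟩)
        · refine h.trace d hd hd2 (H_CD b u hu ha.2.1) hT (hφ a ha.2.1) (hφ _ hcT)
            ((hφ _ hcT).2 fun s hs => (hφ a ha.2.1).1 (H_mono b u inter_subset_left hs)) hfx ?_
          intro s hs k
          obtain ⟨t, ht, h3⟩ := ha.2.2 β hβ s hs k
          refine ⟨t, ht, fun t' ht' hle => ?_⟩
          exact h3 t' (H_mono b u (inter_subset_inter_left _ ha.1) ht') hle α
            (H_sub b u _ ⟨hα, hαβ⟩) _ (hx α hα).1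
      · refine ⟨H b u a, H_mono b u ?_, H_CD b u hu ha.2.1, φ a, hφ a ha.2.1, hfx⟩
        intro γ h1
        refine ⟨ha.1 h1, ?_⟩
        rcases trichotomous_of lt γ α with h3 | h3 | h3
        · exact h3
        · exact absurd (h3 ▸ h1) hna
        · exact absurd ⟨γ, h1, h3⟩ hex
  · intro a ha a' ha'
    obtain ⟨e, he, h1⟩ := hcof (a ∪ a') (union_subset ha.1 ha'.1) (ha.2.1.union ha'.2.1)
    exact ⟨e, he, subset_union_left.trans h1, subset_union_right.trans h1⟩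
  · obtain ⟨e, he, -⟩ := hcof ∅ (empty_subset _) countable_empty
    exact ⟨e, he⟩
  · intro a ha hC
    have hU : (⋃ n, a n) ∈ C := by
      refine hun a ha (fun n => ⟨(hC n).1, (hC n).2.1⟩) fun n β hβ s hs k => ?_
      obtain ⟨t, ht, h3⟩ := (hC n).2.2 β hβ s hs k
      exact ⟨t, H_mono b u (inter_subset_inter_left _ (ha (Nat.le_succ n))) ht, h3⟩
    refine ⟨hU, ?_, ?_⟩
    · rintro _ ⟨n, rfl⟩
      exact hmono _ (hC n) _ hU (subset_iUnion a n)
    · intro v hv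
      refine (hφ _ hU.2.1).2 fun s hs => ?_
      obtain ⟨n, hn⟩ := H_un b u ha hs
      exact ((hφ _ (hC n).2.1).1 hn).trans (hv (mem_range_self n))
  · intro t y hy
    by_cases ht : t ∈ J
    · obtain ⟨e, he, h1⟩ := hcof {t} (singleton_subset_iff.2 ht) (countable_singleton t)
      exact ⟨e, he, h.fx ((hφ e he.2.1).1 (H_sub b u e (h1 rfl))) hy⟩
    · have h1 := not_not.1 (mt (hJ t).2 ht) hy
      obtain ⟨T, hT, hcd, τ, hτ, hfx⟩ := h1
      have h2 : ∀ s : T, ∃ c ⊆ J ∩ {γ | lt γ t}, c.Finite ∧ s.1 ∈ H b u c :=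
        fun s => H_fin b u (hT s.2)
      choose f hf1 hf2 hf3 using h2
      have := hcd.1.to_subtype
      obtain ⟨e, he, h1⟩ := hcof (⋃ s, f s)
        (iUnion_subset fun s => (hf1 s).trans inter_subset_left)
        (countable_iUnion fun s => (hf2 s).countable)
      refine ⟨e, he, h.fx (hτ.2 fun s hs => (hφ e he.2.1).1 ?_) hfx⟩
      exact H_mono b u ((subset_iUnion f ⟨s, hs⟩).trans h1) (hf3 ⟨s, hs⟩)

theorem main [CompactSpace K] [T2Space K] (h : Skel r) :
    ∃ (F : Set (Set K)) (ρ : F → K → K), (∀ A ∈ F, IsCompact A) ∧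
      (∀ s : ℕ → F, Monotone s → ∃ t : F, t.1 = closure (⋃ n, (s n).1) ∧ IsLUB (range s) t) ∧
      (∀ A : F, range (ρ A) = A.1) ∧ Skel ρ ∧ (⋃ A, range (ρ A)) = ⋃ s, range (r s) := by
  rcases isEmpty_or_nonempty K with hK | hK
  · have hs : ∀ A B : (univ : Set (Set K)), A = B := fun A B => Subtype.ext (Subsingleton.elim _ _)
    refine ⟨univ, fun _ => id, fun A _ => (Set.toFinite A).isCompact, ?_,
      fun A => Subsingleton.elim _ _, ?_, Subsingleton.elim _ _⟩
    · intro s _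
      exact ⟨s 0, Subsingleton.elim _ _, fun A _ => (hs _ _).le, fun A _ => (hs _ _).le⟩
    · refine ⟨⟨⟨∅, trivial⟩⟩, fun s t => ⟨s, le_rfl, (hs _ _).le⟩, ?_, fun _ => continuous_id,
        fun _ => rfl, fun _ => inferInstance, fun _ _ _ => ⟨rfl, rfl⟩, ?_, ?_⟩
      · exact fun s _ => ⟨s 0, fun A _ => (hs _ _).le, fun A _ => (hs _ _).le⟩
      · exact fun _ _ _ _ x => isEmptyElim x
      · exact fun x => isEmptyElim x
  obtain ⟨C, φ, J, x, h1, h2, h3, h4, h5, h6⟩ := club hK h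
  let F : Set (Set K) := {A | ∃ a ∈ C, A = range (r (φ a))}
  let ix : F → Set G := fun A => {α ∈ J | x α ∈ A.1}
  have hix : ∀ (A : F) a, a ∈ C → A.1 = range (r (φ a)) → ix A = a := by
    intro A a ha e
    rw [h1 a ha]
    show {α ∈ J | x α ∈ A.1} = _
    rw [e, h.rg]
    rfl
  have hC : ∀ A : F, ix A ∈ C ∧ range (r (φ (ix A))) = A.1 := by
    intro A
    obtain ⟨a, ha, e⟩ := A.2
    rw [hix A a ha e]
    exact ⟨ha, e.symm⟩
  have hm : Monotone ix := fun A B hAB α hα => ⟨hα.1, hAB hα.2⟩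
  have hm2 : Monotone fun A => φ (ix A) := fun A B hAB => h2 _ (hC A).1 _ (hC B).1 (hm hAB)
  have hcl : ∀ A ∈ F, IsClosed A := by
    rintro A ⟨a, -, rfl⟩
    rw [h.rg]
    exact isClosed_eq (h.cont _) continuous_id
  have hsub : ∀ s t, s ≤ t → range (r s) ⊆ range (r t) := by
    intro s t hst y hy
    rw [h.rg] at hy ⊢
    exact h.fx hst hy
  have hsup : ∀ s : ℕ → F, Monotone s → ∃ t : F, t.1 = closure (⋃ n, (s n).1) ∧
      IsLUB (range s) t ∧ IsLUB (range fun n => φ (ix (s n))) (φ (ix t)) := by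
    intro s hs
    obtain ⟨e1, e2⟩ := h5 (fun n => ix (s n)) (hm.comp hs) fun n => (hC _).1
    let t : F := ⟨range (r (φ (⋃ n, ix (s n)))), _, e1, rfl⟩
    have e3 : t.1 = closure (⋃ n, (s n).1) := by
      have := h.clos (hm2.comp hs) e2
      simp only [Function.comp, (hC _).2] at this
      exact this
    refine ⟨t, e3, ⟨?_, ?_⟩, ?_⟩
    · rintro _ ⟨n, rfl⟩
      show (s n).1 ⊆ t.1
      rw [e3]
      exact (subset_iUnion (fun n => (s n).1) n).trans subset_closure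
    · intro v hv
      show t.1 ⊆ v.1
      rw [e3]
      exact closure_minimal (iUnion_subset fun n => hv (mem_range_self n)) (hcl _ v.2)
    · rw [hix t _ e1 rfl]
      exact e2
  have hdir : ∀ A B : F, ∃ E : F, A ≤ E ∧ B ≤ E := by
    intro A B
    obtain ⟨c, hc, e1, e2⟩ := h3 _ (hC A).1 _ (hC B).1
    refine ⟨⟨range (r (φ c)), c, hc, rfl⟩, ?_, ?_⟩
    · show A.1 ⊆ _
      rw [← (hC A).2]
      exact hsub _ _ (h2 _ (hC A).1 _ hc e1)
    · show B.1 ⊆ _
      rw [← (hC B).2]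
      exact hsub _ _ (h2 _ (hC B).1 _ hc e2)
  have hne : Nonempty F := by
    obtain ⟨a, ha⟩ := h4
    exact ⟨⟨range (r (φ a)), a, ha, rfl⟩⟩
  have hD : ∀ t y, r t y = y → ∃ A : F, r (φ (ix A)) y = y := by
    intro t y hy
    obtain ⟨a, ha, e⟩ := h6 t y hy
    refine ⟨⟨range (r (φ a)), a, ha, rfl⟩, ?_⟩
    rw [hix _ a ha rfl]
    exact e
  refine ⟨F, fun A => r (φ (ix A)), fun A hA => (hcl A hA).isCompact, ?_, fun A => (hC A).2, ?_, ?_⟩
  · intro s hs
    obtain ⟨t, e1, e2, -⟩ := hsup s hs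
    exact ⟨t, e1, e2⟩
  · refine ⟨hne, hdir, ?_, fun A => h.cont _, fun A => h.idem _, fun A => h.metr _,
      fun A B hAB => h.comm _ _ (hm2 hAB), ?_, ?_⟩
    · intro s hs
      obtain ⟨t, -, e2, -⟩ := hsup s hs
      exact ⟨t, e2⟩
    · intro s hs t ht y
      obtain ⟨t', -, e2, e3⟩ := hsup s hs
      rw [ht.unique e2]
      exact h.lim _ (hm2.comp hs) _ e3 y
    · intro y
      rw [tendsto_nhds]
      intro U hU hy
      obtain ⟨f, hf0, hf1, -⟩ := exists_continuous_zero_one_of_isClosed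
        (isClosed_singleton (x := y)) hU.isClosed_compl (disjoint_singleton_left.2 fun h' => h' hy)
      obtain ⟨_, ⟨A0, rfl⟩, hA⟩ := h.stab (W := {p | |f p.1 - f p.2| < 1 / 2})
        (isOpen_lt (by fun_prop) continuous_const) (fun z => by simp)
        (A := range fun A : F => φ (ix A)) (range_nonempty _) (by
          rintro _ ⟨A, rfl⟩ _ ⟨B, rfl⟩
          obtain ⟨E, e1, e2⟩ := hdir A B
          exact ⟨_, mem_range_self E, hm2 e1, hm2 e2⟩)
      filter_upwards [mem_atTop A0] with A hA0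
      have : IsDirected G (· ≤ ·) := ⟨h.dir⟩
      have := h.ne
      have hc := h.cont (φ (ix A))
      have hl : Tendsto (fun s => |f (r s y) - f (r (φ (ix A)) (r s y))|) atTop
          (𝓝 |f y - f (r (φ (ix A)) y)|) :=
        (Continuous.tendsto (f := fun z => |f z - f (r (φ (ix A)) z)|) (by fun_prop) y).comp
          (h.conv y)
      have hle : |f y - f (r (φ (ix A)) y)| ≤ 1 / 2 := by
        refine le_of_tendsto' hl fun s => ?_
        obtain ⟨B, hB⟩ := hD s _ (h.id' s y)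
        exact (hA _ (mem_range_self A) (hm2 hA0) _ (mem_range_self B) _ hB).le
      by_contra hn
      have e0 : f y = 0 := hf0 rfl
      have e1 : f (r (φ (ix A)) y) = 1 := hf1 hn
      rw [e0, e1] at hle
      norm_num at hle
  · apply Subset.antisymm
    · exact iUnion_subset fun A => subset_iUnion (fun s => range (r s)) _
    · refine iUnion_subset fun t y hy => ?_
      rw [h.rg] at hy
      obtain ⟨A, hA⟩ := hD t y hy
      exact mem_iUnion.2 ⟨A, y, hA⟩

end Pool.Agent.H.MP_fcea8d
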